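import Pool.Agent.W842.BV.Stms

/-!
# Part DIFF of project BV (helper842), MP_c82047_co
-/

set_option autoImplicit false

namespace Pool.Agent.W456.BV

open Finset Pool.Agent.W842.BV

/-- removing the two special points -/
def rem2 {n : ℕ} (b b' : Fin n) (e : Finset (Fin n)) : Finset (Fin n) := (e.erase b).erase b'

theorem mem_rem2 {n : ℕ} {b b' : Fin n} {e : Finset (Fin n)} {x : Fin n} :
    x ∈ rem2 b b' e ↔ x ≠ b' ∧ x ≠ b ∧ x ∈ e := by
  simp [rem2, mem_erase]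

theorem t_DIFF : Pool.Agent.W842.BV.S_DIFF := by
  intro hF hE hC n s H hs hn hSp b b' hbb
  obtain ⟨h3, -⟩ := id hSp
  -- the members through exactly one of the two points
  obtain ⟨T, hT⟩ : ∃ T, T = H.filter (fun e => (b ∈ e ∧ b' ∉ e) ∨ (b ∉ e ∧ b' ∈ e)) := ⟨_, rfl⟩
  have hTH : T ⊆ H := by rw [hT]; exact filter_subset _ _
  have hTmem : ∀ e, e ∈ T ↔ e ∈ H ∧ ((b ∈ e ∧ b' ∉ e) ∨ (b ∉ e ∧ b' ∈ e)) := by
    intro e; rw [hT, mem_filter]
  have hl : ∀ e ∈ T, (rem2 b b' e).card = 2 := by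
    intro e he
    obtain ⟨heH, h | h⟩ := (hTmem e).mp he
    · have h1 : (e.erase b).card = 2 := by
        rw [card_erase_of_mem h.1, h3 e heH]
      unfold rem2
      rw [erase_eq_of_notMem (fun hh => h.2 (mem_of_mem_erase hh)), h1]
    · have h1 : e.erase b = e := erase_eq_of_notMem h.1
      unfold rem2
      rw [h1, card_erase_of_mem h.2, h3 e heH]
  have hspan : ∀ T' ⊆ T, T'.card = s → s + 2 ≤ (T'.biUnion (rem2 b b')).card := by
    intro T' hT' hc
    have h1 := hE n s H hn hSp T' (hT'.trans hTH) (le_of_eq hc.symm)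
    have h2 : T'.biUnion id ⊆ insert b (insert b' (T'.biUnion (rem2 b b'))) := by
      intro x hx
      obtain ⟨e, he, hxe⟩ := mem_biUnion.mp hx
      rw [mem_insert, mem_insert]
      by_cases hxb : x = b
      · exact Or.inl hxb
      by_cases hxb' : x = b'
      · exact Or.inr (Or.inl hxb')
      exact Or.inr (Or.inr (mem_biUnion.mpr ⟨e, he, mem_rem2.mpr ⟨hxb', hxb, hxe⟩⟩))
    have h4 := card_le_card h2
    have h5 := card_insert_le b (insert b' (T'.biUnion (rem2 b b')))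
    have h6 := card_insert_le b' (T'.biUnion (rem2 b b'))
    omega
  have hfor := hF (Fin n) (Finset (Fin n)) (rem2 b b') s T hs hl hspan
  -- the common members
  obtain ⟨J, hJ⟩ : ∃ J, J = (H.filter (fun e => b ∈ e ∧ b' ∈ e)).biUnion (rem2 b b') := ⟨_, rfl⟩
  have hJc : J.card ≤ (H.filter (fun e => b ∈ e ∧ b' ∈ e)).card := by
    rw [hJ]
    have h1 : ∀ e ∈ H.filter (fun e => b ∈ e ∧ b' ∈ e), (rem2 b b' e).card ≤ 1 := by
      intro e he
      rw [mem_filter] at he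
      have h2 : b' ∈ e.erase b := mem_erase.mpr ⟨hbb.symm, he.2.2⟩
      unfold rem2
      rw [card_erase_of_mem h2, card_erase_of_mem he.2.1, h3 e he.1]
    have := card_biUnion_le_card_mul _ _ 1 h1
    simpa using this
  have hcod := hC hE n s H hs hn hSp b b' hbb
  have hJmem : ∀ x e, e ∈ H → b ∈ e → b' ∈ e → x ≠ b → x ≠ b' → x ∈ e → x ∈ J := by
    intro x e he hb hb' hx hx' hxe
    rw [hJ]
    exact mem_biUnion.mpr ⟨e, mem_filter.mpr ⟨he, hb, hb'⟩, mem_rem2.mpr ⟨hx', hx, hxe⟩⟩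
  have hnb : ∀ (v x : Fin n), x ∈ nbr H v ↔ x ≠ v ∧ ∃ e ∈ H, v ∈ e ∧ x ∈ e := by
    intro v x
    simp [nbr]
  -- the vertices of degree one
  obtain ⟨Q, hQ⟩ : ∃ Q, Q = (T.biUnion (rem2 b b')).filter
    (fun x => (T.filter (fun e => x ∈ rem2 b b' e)).card = 1) := ⟨_, rfl⟩
  rw [← hQ] at hfor
  have hQsub : Q ⊆ symmDiff (nbr H b) (nbr H b') ∪ J := by
    intro x hx
    rw [hQ, mem_filter] at hx
    obtain ⟨hx1, hx2⟩ := hx
    obtain ⟨e, he, hxe⟩ := mem_biUnion.mp hx1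
    have hxe' := mem_rem2.mp hxe
    rw [mem_union]
    by_contra hcon
    push Not at hcon
    obtain ⟨hcon1, hcon2⟩ := hcon
    rw [mem_symmDiff] at hcon1
    push Not at hcon1
    have huniq : ∀ e' ∈ T, x ∈ e' → e' = e := by
      intro e' he' hxe2
      obtain ⟨a, ha⟩ := card_eq_one.mp hx2
      have m1 : e ∈ T.filter (fun e => x ∈ rem2 b b' e) := mem_filter.mpr ⟨he, hxe⟩
      have m2 : e' ∈ T.filter (fun e => x ∈ rem2 b b' e) :=
        mem_filter.mpr ⟨he', mem_rem2.mpr ⟨hxe'.1, hxe'.2.1, hxe2⟩⟩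
      rw [ha, mem_singleton] at m1 m2
      rw [m1, m2]
    obtain ⟨heH, h | h⟩ := (hTmem e).mp he
    · have m1 : x ∈ nbr H b := (hnb b x).mpr ⟨hxe'.2.1, e, heH, h.1, hxe'.2.2⟩
      have m2 := hcon1.1 m1
      obtain ⟨_, e', he'H, hb'e', hxe2⟩ := (hnb b' x).mp m2
      by_cases hbe' : b ∈ e'
      · exact hcon2 (hJmem x e' he'H hbe' hb'e' hxe'.2.1 hxe'.1 hxe2)
      · have m3 := huniq e' ((hTmem e').mpr ⟨he'H, Or.inr ⟨hbe', hb'e'⟩⟩) hxe2
        rw [m3] at hbe'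
        exact hbe' h.1
    · have m1 : x ∈ nbr H b' := (hnb b' x).mpr ⟨hxe'.1, e, heH, h.2, hxe'.2.2⟩
      have m2 := hcon1.2 m1
      obtain ⟨_, e', he'H, hbe', hxe2⟩ := (hnb b x).mp m2
      by_cases hb'e' : b' ∈ e'
      · exact hcon2 (hJmem x e' he'H hbe' hb'e' hxe'.2.1 hxe'.1 hxe2)
      · have m3 := huniq e' ((hTmem e').mpr ⟨he'H, Or.inl ⟨hbe', hb'e'⟩⟩) hxe2
        rw [m3] at hb'e'
        exact hb'e' h.2
  have hQc : Q.card ≤ (symmDiff (nbr H b) (nbr H b')).card + J.card :=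
    (card_le_card hQsub).trans (card_union_le _ _)
  have hNsub : nbr H b ⊆ insert b' (J ∪ T.biUnion (rem2 b b')) := by
    intro x hx
    obtain ⟨hxb, e, heH, hbe, hxe⟩ := (hnb b x).mp hx
    rw [mem_insert, mem_union]
    by_cases hxb' : x = b'
    · exact Or.inl hxb'
    by_cases hb'e : b' ∈ e
    · exact Or.inr (Or.inl (hJmem x e heH hbe hb'e hxb hxb' hxe))
    · exact Or.inr (Or.inr (mem_biUnion.mpr ⟨e, (hTmem e).mpr ⟨heH, Or.inl ⟨hbe, hb'e⟩⟩,
        mem_rem2.mpr ⟨hxb', hxb, hxe⟩⟩))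
  have hNc := card_le_card hNsub
  have hi := card_insert_le b' (J ∪ T.biUnion (rem2 b b'))
  have hu := card_union_le J (T.biUnion (rem2 b b'))
  have hJs : J.card + 1 ≤ s := by omega
  have hfin : s * (Q.card + 1) ≤ s * (symmDiff (nbr H b) (nbr H b')).card + s ^ 2 := by
    calc s * (Q.card + 1) ≤ s * ((symmDiff (nbr H b) (nbr H b')).card + s) :=
          Nat.mul_le_mul_left s (by omega)
      _ = _ := by ring
  omega

end Pool.Agent.W456.BV
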