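import Pool.Agent.W842.BV.Stms

/-!
# Part FOREST of project BV (helper842), MP_c82047_co
-/

set_option autoImplicit false

namespace Pool.Agent.W456.BV

open Finset Pool.Agent.W842.BV

/-- sets of edges built one at a time, each new edge meeting the old ones -/
inductive Built {V ι : Type} [DecidableEq V] [DecidableEq ι] (l : ι → Finset V) :
    Finset ι → Prop
  | single (e : ι) : Built l {e}
  | add (B : Finset ι) (e : ι) : Built l B → e ∉ B → ¬ Disjoint (l e) (B.biUnion l) →
      Built l (insert e B)

variable {V ι : Type} [DecidableEq V] [DecidableEq ι] (l : ι → Finset V)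

theorem Built.nonempty {l : ι → Finset V} {B : Finset ι} (h : Built l B) : B.Nonempty := by
  cases h with
  | single e => exact ⟨e, by simp⟩
  | add B e _ _ _ => exact ⟨e, by simp⟩

theorem Built.card_le {l : ι → Finset V} {B : Finset ι} (h : Built l B) :
    (∀ e ∈ B, (l e).card = 2) → (B.biUnion l).card ≤ B.card + 1 := by
  induction h with
  | single e =>
    intro h2
    simp [h2 e (by simp)]
  | add B e hB he hd ih =>
    intro h2
    have h1 := ih (fun f hf => h2 f (mem_insert_of_mem hf))
    rw [biUnion_insert, card_insert_of_notMem he]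
    have h3 : (l e ∩ B.biUnion l).Nonempty := by
      rwa [← not_disjoint_iff_nonempty_inter]
    have h4 := card_union_add_card_inter (l e) (B.biUnion l)
    have h5 := h2 e (mem_insert_self e B)
    have h6 := card_pos.mpr h3
    omega

/-- double counting of the incidences -/
theorem sum_deg (B : Finset ι) :
    ∑ x ∈ B.biUnion l, (B.filter (fun e => x ∈ l e)).card = ∑ e ∈ B, (l e).card := by
  have := Finset.sum_card_bipartiteAbove_eq_sum_card_bipartiteBelow
    (s := B.biUnion l) (t := B) (fun x e => x ∈ l e)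
  simp only [bipartiteAbove, bipartiteBelow] at this
  rw [this]
  apply sum_congr rfl
  intro e he
  congr 1
  ext x
  simp only [mem_filter, mem_biUnion]
  constructor
  · rintro ⟨_, h⟩
    exact h
  · intro h
    exact ⟨⟨e, he, h⟩, h⟩

/-- the number of vertices of degree one -/
def q1 (T : Finset ι) : ℕ :=
  ((T.biUnion l).filter (fun x => (T.filter (fun e => x ∈ l e)).card = 1)).card

theorem exists_leaf (B : Finset ι) (h2 : ∀ e ∈ B, (l e).card = 2)
    (hc : (B.biUnion l).card = B.card + 1) : 1 ≤ q1 l B := by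
  by_contra hq
  have hq0 : q1 l B = 0 := by omega
  have hall : ∀ x ∈ B.biUnion l, 2 ≤ (B.filter (fun e => x ∈ l e)).card := by
    intro x hx
    have h1 : 1 ≤ (B.filter (fun e => x ∈ l e)).card := by
      obtain ⟨e, he, hxe⟩ := mem_biUnion.mp hx
      exact card_pos.mpr ⟨e, mem_filter.mpr ⟨he, hxe⟩⟩
    by_contra hlt
    have h3 : (B.filter (fun e => x ∈ l e)).card = 1 := by omega
    have h4 : x ∈ (B.biUnion l).filter (fun x => (B.filter (fun e => x ∈ l e)).card = 1) :=
      mem_filter.mpr ⟨hx, h3⟩
    have h5 := card_pos.mpr ⟨x, h4⟩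
    unfold q1 at hq0
    omega
  have h6 := Finset.card_nsmul_le_sum (B.biUnion l)
    (fun x => (B.filter (fun e => x ∈ l e)).card) 2 hall
  rw [sum_deg l B, sum_congr rfl h2, hc] at h6
  simp only [smul_eq_mul, Finset.sum_const] at h6
  omega

theorem forest_aux (n : ℕ) : ∀ (s : ℕ) (T : Finset ι), T.card = n →
    1 ≤ s → (∀ e ∈ T, (l e).card = 2) →
    (∀ T' ⊆ T, T'.card = s → s + 2 ≤ (T'.biUnion l).card) →
    (T.biUnion l).card ≤ s * (q1 l T + 1) := by
  induction n using Nat.strong_induction_on with
  | _ n ih =>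
  intro s T hn hs h2 H
  rcases T.eq_empty_or_nonempty with rfl | ⟨e₀, he₀⟩
  · simp
  -- a maximal built set
  haveI hdec : DecidablePred (fun B : Finset ι => Built l B) := fun _ => Classical.dec _
  have hne : ((T.powerset.filter (fun B => B.card ≤ s)).filter (fun B => Built l B)).Nonempty :=
    ⟨{e₀}, by simp [he₀, hs, Built.single]⟩
  obtain ⟨B, hB, hmax⟩ := exists_max_image
    ((T.powerset.filter (fun B => B.card ≤ s)).filter (fun B => Built l B)) card hne
  simp only [mem_filter, mem_powerset] at hB hmax
  obtain ⟨⟨hBT, hBs⟩, hBb⟩ := hB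
  have hB2 : ∀ e ∈ B, (l e).card = 2 := fun e he => h2 e (hBT he)
  have hBc := hBb.card_le hB2
  have hBlt : B.card < s := by
    rcases lt_or_eq_of_le hBs with h | h
    · exact h
    · have := H B hBT h
      omega
  have hdis : ∀ e ∈ T \ B, Disjoint (l e) (B.biUnion l) := by
    intro e he
    by_contra hd
    rw [mem_sdiff] at he
    have h1 := hmax (insert e B) ⟨⟨insert_subset he.1 hBT, by
      rw [card_insert_of_notMem he.2]; omega⟩, Built.add B e hBb he.2 hd⟩
    rw [card_insert_of_notMem he.2] at h1
    omega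
  have hBne : 1 ≤ B.card := card_pos.mpr hBb.nonempty
  have hcard : (T \ B).card + B.card = T.card := card_sdiff_add_card_eq_card hBT
  have hTu : T = B ∪ (T \ B) := (union_sdiff_of_subset hBT).symm
  have hdisU : Disjoint (B.biUnion l) ((T \ B).biUnion l) := by
    rw [disjoint_comm, disjoint_biUnion_left]
    exact hdis
  have hbi : T.biUnion l = B.biUnion l ∪ (T \ B).biUnion l := by
    conv_lhs => rw [hTu]
    rw [union_biUnion]
  have hbic : (T.biUnion l).card = (B.biUnion l).card + ((T \ B).biUnion l).card := by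
    rw [hbi, card_union_of_disjoint hdisU]
  -- degrees
  have hdegB : ∀ x ∈ B.biUnion l, T.filter (fun e => x ∈ l e) = B.filter (fun e => x ∈ l e) := by
    intro x hx
    ext e
    simp only [mem_filter]
    constructor
    · rintro ⟨heT, hxe⟩
      refine ⟨?_, hxe⟩
      by_contra heB
      exact disjoint_left.mp (hdis e (mem_sdiff.mpr ⟨heT, heB⟩)) hxe hx
    · rintro ⟨heB, hxe⟩
      exact ⟨hBT heB, hxe⟩
  have hdegT : ∀ x ∈ (T \ B).biUnion l,
      T.filter (fun e => x ∈ l e) = (T \ B).filter (fun e => x ∈ l e) := by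
    intro x hx
    ext e
    simp only [mem_filter, mem_sdiff]
    constructor
    · rintro ⟨heT, hxe⟩
      refine ⟨⟨heT, ?_⟩, hxe⟩
      intro heB
      exact disjoint_left.mp hdisU (mem_biUnion.mpr ⟨e, heB, hxe⟩) hx
    · rintro ⟨heB, hxe⟩
      exact ⟨heB.1, hxe⟩
  have hq : q1 l T = q1 l B + q1 l (T \ B) := by
    unfold q1
    conv_lhs => rw [hbi]
    rw [filter_union, card_union_of_disjoint
      (disjoint_filter_filter hdisU)]
    congr 1
    · congr 1
      apply filter_congr
      intro x hx
      rw [hdegB x hx]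
    · congr 1
      apply filter_congr
      intro x hx
      rw [hdegT x hx]
  have h2' : ∀ e ∈ T \ B, (l e).card = 2 := fun e he => h2 e (mem_sdiff.mp he).1
  rcases Nat.lt_or_ge B.card (B.biUnion l).card with hlt | hge
  · -- a tree
    have hvB : (B.biUnion l).card = B.card + 1 := by omega
    have hl := exists_leaf l B hB2 hvB
    have h1 := ih (T \ B).card (by omega) s (T \ B) rfl hs h2'
      (fun T' hT' hc => H T' (hT'.trans sdiff_subset) hc)
    rw [hbic, hq]
    have h3 : s * (q1 l (T \ B) + 1) + s ≤ s * (q1 l B + q1 l (T \ B) + 1) := by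
      have : s * (q1 l (T \ B) + 1) + s = s * (q1 l (T \ B) + 1 + 1) := by ring
      rw [this]
      exact Nat.mul_le_mul_left s (by omega)
    omega
  · obtain ⟨β, hβ⟩ : ∃ β, β = B.card := ⟨_, rfl⟩
    obtain ⟨t, ht⟩ : ∃ t, s = β + t := ⟨s - β, by omega⟩
    have h1 := ih (T \ B).card (by omega) t (T \ B) rfl (by omega) h2' (by
      intro T' hT' hc
      have hd1 : Disjoint B T' := by
        rw [disjoint_left]
        intro e he he'
        exact (mem_sdiff.mp (hT' he')).2 he
      have h3 := H (B ∪ T') (union_subset hBT (hT'.trans sdiff_subset)) (by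
        rw [card_union_of_disjoint hd1]; omega)
      rw [union_biUnion] at h3
      have h4 := card_union_le (B.biUnion l) (T'.biUnion l)
      omega)
    rw [hbic, hq]
    have h5 : t * (q1 l (T \ B) + 1) + β ≤ s * (q1 l B + q1 l (T \ B) + 1) := by
      calc t * (q1 l (T \ B) + 1) + β ≤ t * (q1 l (T \ B) + 1) + β * (q1 l (T \ B) + 1) := by
            have : β * 1 ≤ β * (q1 l (T \ B) + 1) := Nat.mul_le_mul_left β (by omega)
            omega
        _ = s * (q1 l (T \ B) + 1) := by rw [ht]; ring
        _ ≤ s * (q1 l B + q1 l (T \ B) + 1) := Nat.mul_le_mul_left s (by omega)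
    omega

theorem t_FOREST : Pool.Agent.W842.BV.S_FOREST := by
  intro V ι _ _ l s T hs h2 H
  exact forest_aux l T.card s T rfl hs h2 H

end Pool.Agent.W456.BV
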